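import Pool.Agent.L0h86.XF.StmB
import Pool.Agent.L0h2.P.LA2
import Pool.Agent.L0h1.KD.BX

/-!
# The count in a box for systems of two fields: the matrices (after `Pool/Agent/L0h74/EV/BX.lean`)
-/

set_option autoImplicit false
set_option linter.unusedSectionVars false
set_option linter.unusedVariables false
set_option maxHeartbeats 4000000

open scoped Classical

namespace Pool.Agent.L0h74.BXX

open Finset
open Pool.Agent.Y703.CQ (nr sg c2 S_SYM S_C2)
open Pool.Agent.N973.ND (m7 uu Gv m7_le nr_rec nr_self Hyp Wk pt sl sx TT Ph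
  Zk bf Gv_tr S_ALT z2_add t_ALT)
open Pool.Agent.L0h74.T3 (m3)
open Pool.Agent.L0h74.EV (n2)
open Pool.Agent.N916.GB (HB)
open Pool.Agent.N958.GB (sgm HB_sub)
open Pool.Agent.L0h1.KD (card_prod_le E1 am am_le am_nonneg card_E1 eqc xe JK)
open Pool.Agent.L0h86.XF

theorem mF_le (f : Bool) (p : ℕ) : mF f p ≤ 1 := by
  cases f
  · exact m7_le p
  · show m3 p ≤ 1
    unfold m3
    split_ifs <;> omega

theorem ty_cases (f : Bool) (x : ℕ) : (ty f x = 0 ∧ mF f x = 0 ∧ uu x = 0) ∨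
    (ty f x = 1 ∧ mF f x = 0 ∧ uu x = 1) ∨
    (ty f x = 2 ∧ mF f x = 1 ∧ uu x = 0) ∨ (ty f x = 3 ∧ mF f x = 1 ∧ uu x = 1) := by
  have h1 := mF_le f x
  have h2 : mF f x = 0 ∨ mF f x = 1 := by omega
  unfold ty uu
  by_cases h : x % 4 = 3
  · rw [if_pos h, if_pos h]
    rcases h2 with h2 | h2 <;> rw [h2] <;> simp
  · rw [if_neg h, if_neg h]
    rcases h2 with h2 | h2 <;> rw [h2] <;> simp

theorem mF_of_ty {f : Bool} {x y : ℕ} (h : ty f x = ty f y) : mF f x = mF f y := by
  rcases ty_cases f x with h1 | h1 | h1 | h1 <;> rcases ty_cases f y with h2 | h2 | h2 | h2 <;>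
    first | (exfalso; have a1 := h1.1; have a2 := h2.1; omega) | (rw [h1.2.1, h2.2.1])

theorem uu_of_ty {f : Bool} {x y : ℕ} (h : ty f x = ty f y) : uu x = uu y := by
  rcases ty_cases f x with h1 | h1 | h1 | h1 <;> rcases ty_cases f y with h2 | h2 | h2 | h2 <;>
    first | (exfalso; have a1 := h1.1; have a2 := h2.1; omega) | (rw [h1.2.2, h2.2.2])

theorem tyO_cases {d : Dt} (ht : d.t < 4) (x : Option ℕ) :
    (tyO d x = 0 ∧ mO d x = 0 ∧ uO d x = 0) ∨ (tyO d x = 1 ∧ mO d x = 0 ∧ uO d x = 1) ∨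
    (tyO d x = 2 ∧ mO d x = 1 ∧ uO d x = 0) ∨ (tyO d x = 3 ∧ mO d x = 1 ∧ uO d x = 1) := by
  rcases x with _ | p
  · have e1 : tyO d none = d.t := rfl
    have e2 : mO d none = d.t / 2 := rfl
    have e3 : uO d none = if d.t % 2 = 1 then 1 else 0 := rfl
    rw [e1, e2, e3]
    have h : d.t = 0 ∨ d.t = 1 ∨ d.t = 2 ∨ d.t = 3 := by omega
    rcases h with h | h | h | h <;> rw [h] <;> decide
  · exact ty_cases d.f p

theorem nO_self {d : Dt} (x : Option ℕ) : nO d x x = 0 := by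
  rcases x with _ | p
  · rfl
  · exact nr_self p

theorem nO_rec {d : Dt} {x y : Option ℕ} (hx : PrO d.f x) (hy : PrO d.f y) (h : x ≠ y) :
    nO d y x = nO d x y + uO d x * uO d y := by
  have key : ∀ p : ℕ, (if d.t % 2 = 1 then uu p else 0) =
      (if d.t % 2 = 1 then (1 : ZMod 2) else 0) * uu p := by
    intro p
    split_ifs <;> ring
  rcases x with _ | p <;> rcases y with _ | q
  · exact absurd rfl h
  · show n2 q = n2 q + (if d.t % 2 = 1 then uu q else 0) +
      (if d.t % 2 = 1 then (1 : ZMod 2) else 0) * uu q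
    rw [key, add_assoc, z2_add, add_zero]
  · show n2 p + (if d.t % 2 = 1 then uu p else 0) =
      n2 p + uu p * (if d.t % 2 = 1 then (1 : ZMod 2) else 0)
    rw [key, mul_comm]
  · exact nr_rec hx.1 hx.2.1 hy.1 hy.2.1 fun h' => h (congrArg some h')

section transport
variable {V V' : Type} [Fintype V] [Fintype V']

theorem GRO_tr (e : V ≃ V') (d : Dt) {r : V → Option ℕ} {r' : V' → Option ℕ}
    (hr : ∀ i, r' (e i) = r i) (h : GRO d r) : GRO d r' := by
  refine Gv_tr e ?_ ?_ ?_ ?_ ?_ h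
  · intro i
    simp only [mem_filter, mem_univ, true_and, hr]
  · intro i
    simp only [mem_filter, mem_univ, true_and, hr]
  · intro i j
    rw [hr, hr]
  · intro i j
    rw [hr, hr]
    by_cases h1 : i = j
    · rw [if_pos h1, if_pos (congrArg e h1)]
    · rw [if_neg h1, if_neg fun h2 => h1 (e.injective h2)]
  · intro i
    rw [hr]

theorem GRO_iff (e : V ≃ V') (d : Dt) {r : V → Option ℕ} {r' : V' → Option ℕ}
    (hr : ∀ i, r' (e i) = r i) : GRO d r ↔ GRO d r' :=
  ⟨GRO_tr e d hr, GRO_tr e.symm d fun i => by rw [← hr, e.apply_symm_apply]⟩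

/-- the good sets from a parametrization -/
theorem GdO_iff (d : Dt) {r : V → Option ℕ} (hr : Function.Injective r)
    {S : Finset (Option ℕ)} (hS : univ.image r = S) : GdO d S ↔ GRO d r := by
  unfold GdO
  have h1 : ∀ i, r i ∈ S := fun i => by
    rw [← hS]
    exact mem_image_of_mem _ (mem_univ _)
  have h2 : Function.Bijective fun i : V => (⟨r i, h1 i⟩ : S) := by
    constructor
    · intro i j h
      exact hr (congrArg Subtype.val h)
    · rintro ⟨x, hx⟩
      rw [← hS, mem_image] at hx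
      obtain ⟨i, -, rfl⟩ := hx
      exact ⟨i, rfl⟩
  exact (GRO_iff (Equiv.ofBijective _ h2) d fun i => rfl).symm

end transport

/-- the type of the labels -/
abbrev Lb (S₀ : Finset (Option ℕ)) : Type := (S₀ → ZMod 2) × (S₀ → ZMod 2) × ZMod 2

/-- the label of a prime with respect to the small primes -/
noncomputable def lb (d : Dt) (S₀ : Finset (Option ℕ)) (x : ℕ) : Lb S₀ :=
  (fun v => nO d (some x) v, fun v => nO d v (some x), d.b x)

/-- the good labels -/
def LN {ι : Type} (S₀ : Finset (Option ℕ)) (τ : ι → ℕ) (β : ι → Lb S₀) : Prop :=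
  ∀ w : S₀ → ZMod 2, (∃ u, w u ≠ 0) → ∃ i, τ i = 2 ∧ ∑ v : S₀, w v * (β i).1 v ≠ 0

section
variable {ι : Type} [Fintype ι] [LinearOrder ι] {S₀ : Finset (Option ℕ)} {p : ι → ℕ}
  {τ : Bool → ι → ℕ} {d : Dt}

/-- the parametrization -/
def rr (S₀ : Finset (Option ℕ)) (p : ι → ℕ) : S₀ ⊕ ι → Option ℕ :=
  Sum.elim (fun u => (u : Option ℕ)) fun i => some (p i)

theorem rr_inj (hp : Function.Injective p) (hd : ∀ i, some (p i) ∉ S₀) :
    Function.Injective (rr S₀ p) := by
  have hd' : ∀ (u : S₀) (i : ι), (u : Option ℕ) ≠ some (p i) :=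
    fun u i h => hd i (by rw [← h]; exact u.2)
  rintro (u | i) (v | j) h
  · exact congrArg Sum.inl (Subtype.ext h)
  · exact absurd h (hd' u j)
  · exact absurd h.symm (hd' v i)
  · exact congrArg Sum.inr (hp (Option.some_injective _ h))

theorem rr_im : univ.image (rr S₀ p) = S₀ ∪ univ.image fun i => some (p i) := by
  ext x
  rw [mem_union, mem_image, mem_image]
  constructor
  · rintro ⟨u | i, -, rfl⟩
    · exact Or.inl u.2
    · exact Or.inr ⟨i, mem_univ _, rfl⟩
  · rintro (h | ⟨i, -, rfl⟩)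
    · exact ⟨Sum.inl ⟨x, h⟩, mem_univ _, rfl⟩
    · exact ⟨Sum.inr i, mem_univ _, rfl⟩

/-- the matrix of a family -/
noncomputable def NN (d : Dt) {V : Type} (r : V → Option ℕ) (i j : V) : ZMod 2 := nO d (r j) (r i)

/-- the matrix of a family -/
noncomputable def EE (d : Dt) {V : Type} (r : V → Option ℕ) (i j : V) : ZMod 2 :=
  if i = j then 0 else eO d (r i) (r j)

/-- the split indices -/
noncomputable def SSp (d : Dt) {V : Type} [Fintype V] (r : V → Option ℕ) : Finset V :=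
  univ.filter fun i => mO d (r i) = 1

/-- the other index set -/
noncomputable def PPc (d : Dt) {V : Type} [Fintype V] (r : V → Option ℕ) : Finset V :=
  univ.filter fun i => tyO d (r i) = 2 ∨ tyO d (r i) = 1

theorem GRO_eq (d : Dt) {V : Type} [Fintype V] (r : V → Option ℕ) :
    GRO d r ↔ Gv (SSp d r) (PPc d r) (NN d r) (EE d r) fun i => bO d (r i) := Iff.rfl

theorem ty_rr {p₀ : ι → ℕ} (h : ∀ i, ty d.f (p i) = ty d.f (p₀ i)) (i : S₀ ⊕ ι) :
    tyO d (rr S₀ p i) = tyO d (rr S₀ p₀ i) := by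
  rcases i with u | i
  · rfl
  · exact h i

theorem SSp_eq {p₀ : ι → ℕ} (h : ∀ i, ty d.f (p i) = ty d.f (p₀ i)) :
    SSp d (rr S₀ p) = SSp d (rr S₀ p₀) := by
  unfold SSp
  refine filter_congr fun i _ => ?_
  rcases i with u | i
  · exact Iff.rfl
  · have : mO d (rr S₀ p (Sum.inr i)) = mO d (rr S₀ p₀ (Sum.inr i)) := mF_of_ty (h i)
    rw [this]

theorem PPc_eq {p₀ : ι → ℕ} (h : ∀ i, ty d.f (p i) = ty d.f (p₀ i)) :
    PPc d (rr S₀ p) = PPc d (rr S₀ p₀) := by
  unfold PPc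
  exact filter_congr fun i _ => by rw [ty_rr h i]

/-- the reciprocity of the matrix -/
theorem NN_rec {V : Type} {r : V → Option ℕ} (hr : Function.Injective r)
    (hp : ∀ i, PrO d.f (r i)) (i j : V) (hij : i ≠ j) :
    NN d r j i = NN d r i j + uO d (r i) * uO d (r j) := by
  unfold NN
  rw [nO_rec (hp j) (hp i) fun h => hij (hr h).symm]
  ring

theorem EE_symm (hA : RecA d.f d.A) {V : Type} {r : V → Option ℕ}
    (hr : Function.Injective r) (hp : ∀ i, PrO d.f (r i)) (i j : V) (hi : mO d (r i) = 1)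
    (hj : mO d (r j) = 1) : EE d r i j = EE d r j i := by
  unfold EE
  by_cases h : i = j
  · rw [if_pos h, if_pos h.symm]
  · rw [if_neg h, if_neg fun h' => h h'.symm]
    have hne : r i ≠ r j := fun h' => h (hr h')
    have hpi := hp i
    have hpj := hp j
    revert hi hj hne hpi hpj
    generalize r i = x
    generalize r j = y
    intro hx hy hne px py
    rcases x with _ | x <;> rcases y with _ | y
    · rfl
    · rfl
    · rfl
    · show d.A x y + nr y x = d.A y x + nr x y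
      have hxy : x ≠ y := fun h' => hne (congrArg some h')
      rw [hA x y px py hxy hx hy, nr_rec px.1 px.2.1 py.1 py.2.1 hxy]
      have : ∀ a b c : ZMod 2, a + (b + c) = a + c + b := by decide
      exact this _ _ _

/-- the facts on the tuples of a box with given labels -/
structure TP (τ : Bool → ι → ℕ) (d : Dt) (S₀ : Finset (Option ℕ)) (β : ι → Lb S₀) (p : ι → ℕ) :
    Prop where
  inj : Function.Injective p
  pr : ∀ i, PrF d.f (p i)
  ns : ∀ i, some (p i) ∉ S₀
  ty : ∀ f i, ty f (p i) = τ f i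
  lab : ∀ i, lb d S₀ (p i) = β i

/-- the large indices which split in one of the fields -/
noncomputable def JKX (τ : Bool → ι → ℕ) : Finset ι := JK (τ false) ∪ JK (τ true)

/-- the large indices which are inert in both fields, `1` modulo `4` -/
noncomputable def LCX (τ : Bool → ι → ℕ) : Finset ι :=
  univ.filter fun i => τ false i = 0 ∧ τ true i = 0

theorem mem_LCX {i : ι} : i ∈ LCX τ ↔ ∀ f, τ f i = 0 := by
  unfold LCX
  rw [mem_filter]
  constructor
  · rintro ⟨-, h1, h2⟩ f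
    cases f
    · exact h1
    · exact h2
  · intro h
    exact ⟨mem_univ _, h false, h true⟩

theorem mem_JKX {i : ι} : i ∈ JKX τ ↔ ∃ f, i ∈ JK (τ f) := by
  unfold JKX
  rw [mem_union]
  constructor
  · rintro (h | h)
    · exact ⟨false, h⟩
    · exact ⟨true, h⟩
  · rintro ⟨f, h⟩
    cases f
    · exact Or.inl h
    · exact Or.inr h

theorem mem_JK {τ : ι → ℕ} {i : ι} : i ∈ JK τ ↔ τ i = 2 ∨ τ i = 3 := by
  unfold JK
  rw [mem_filter]
  exact ⟨fun h => h.2, fun h => ⟨mem_univ _, h⟩⟩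

theorem JL_dis (τ : Bool → ι → ℕ) : Disjoint (JKX τ) (LCX τ) := by
  rw [Finset.disjoint_left]
  intro i hi hi'
  obtain ⟨f, hf⟩ := mem_JKX.1 hi
  have h1 := mem_JK.1 hf
  have h2 := mem_LCX.1 hi' f
  omega

/-- the tuple with the primes of `LCX` replaced -/
def hat (τ : Bool → ι → ℕ) (p₀ p : ι → ℕ) (i : ι) : ℕ :=
  if τ false i = 0 ∧ τ true i = 0 then p₀ i else p i

theorem hat_pos {p₀ p : ι → ℕ} {i : ι} (h : i ∈ LCX τ) : hat τ p₀ p i = p₀ i := by
  unfold hat
  exact if_pos ⟨mem_LCX.1 h false, mem_LCX.1 h true⟩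

theorem hat_neg {p₀ p : ι → ℕ} {i : ι} (h : i ∉ LCX τ) : hat τ p₀ p i = p i := by
  unfold hat
  refine if_neg fun h' => h (mem_LCX.2 fun f => ?_)
  cases f
  · exact h'.1
  · exact h'.2

variable {β : ι → Lb S₀} {C : ι → Finset ℕ}

/-- the matrix with the free symbols set to zero -/
noncomputable def MM (d : Dt) (τ : Bool → ι → ℕ) (S₀ : Finset (Option ℕ)) (p : ι → ℕ) :
    S₀ ⊕ ι → S₀ ⊕ ι → ZMod 2 :=
  pt (NN d (rr S₀ p)) fun k l => if k ∈ JKX τ ∧ l ∈ LCX τ then nr (p l) (p k) else 0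

theorem mem_SSp {p : ι → ℕ} (hp : TP τ d S₀ β p) (k : ι) :
    Sum.inr k ∈ SSp d (rr S₀ p) ↔ k ∈ JK (τ d.f) := by
  unfold SSp
  rw [mem_filter, mem_JK]
  have h1 : rr S₀ p (Sum.inr k) = some (p k) := rfl
  have h2 := hp.ty d.f k
  rw [h1, ← h2]
  show _ ∧ mF d.f (p k) = 1 ↔ _
  rcases ty_cases d.f (p k) with h | h | h | h <;> rw [h.1, h.2.1] <;> simp

/-- the matrix of a tuple, from the free symbols -/
theorem NN_hat {p₀ p : ι → ℕ} (h₀ : TP τ d S₀ β p₀) (hp : TP τ d S₀ β p) :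
    ∀ i ∈ SSp d (rr S₀ p₀), ∀ j, NN d (rr S₀ p) i j =
      pt (MM d τ S₀ (hat τ p₀ p)) (xe (Jk := JKX τ) (Lc := LCX τ)
        fun e => nr (p e.1.1) (p e.1.2)) i j := by
  intro i hi j
  rcases i with u | k
  · rcases j with v | l
    · rfl
    · show nO d (some (p l)) u = nO d (some (hat τ p₀ p l)) u
      by_cases h : l ∈ LCX τ
      · rw [hat_pos h]
        have h1 := (h₀.lab l).trans (hp.lab l).symm
        have h2 := congrFun (congrArg Prod.fst h1) u
        exact h2.symm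
      · rw [hat_neg h]
  · have hk : k ∈ JK (τ d.f) := (mem_SSp h₀ k).1 hi
    have hkX : k ∈ JKX τ := mem_JKX.2 ⟨_, hk⟩
    have hkL : k ∉ LCX τ := Finset.disjoint_left.1 (JL_dis τ) hkX
    have hhk : hat τ p₀ p k = p k := hat_neg hkL
    rcases j with v | l
    · show nO d v (some (p k)) = nO d v (some (hat τ p₀ p k))
      rw [hhk]
    · show nr (p l) (p k) = nr (hat τ p₀ p l) (hat τ p₀ p k) +
        (if k ∈ JKX τ ∧ l ∈ LCX τ then nr (hat τ p₀ p l) (hat τ p₀ p k) else 0) +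
        xe (Jk := JKX τ) (Lc := LCX τ) (fun e => nr (p e.1.1) (p e.1.2)) k l
      unfold xe
      by_cases hl : l ∈ LCX τ
      · rw [if_pos ⟨hkX, hl⟩, dif_pos (mem_product.2 ⟨hkX, hl⟩), z2_add, zero_add]
        have hne : k ≠ l := fun h => hkL (h ▸ hl)
        have hu : uu (p l) = 0 := by
          have h1 := hp.ty d.f l
          rw [mem_LCX.1 hl d.f] at h1
          rcases ty_cases d.f (p l) with h | h | h | h
          · exact h.2.2
          · rw [h.1] at h1; omega
          · rw [h.1] at h1; omega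
          · rw [h.1] at h1; omega
        show nr (p l) (p k) = nr (p k) (p l)
        rw [nr_rec (hp.pr k).1 (hp.pr k).2.1 (hp.pr l).1 (hp.pr l).2.1 (fun h => hne (hp.inj h)), hu,
          mul_zero, add_zero]
      · rw [if_neg (fun h => hl h.2), dif_neg (fun h => hl (mem_product.1 h).2), add_zero, add_zero,
          hhk, hat_neg hl]

theorem EE_hat {p₀ p : ι → ℕ} (h₀ : TP τ d S₀ β p₀) :
    ∀ i ∈ SSp d (rr S₀ p₀), ∀ j ∈ SSp d (rr S₀ p₀),
      EE d (rr S₀ p) i j = EE d (rr S₀ (hat τ p₀ p)) i j := by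
  have key : ∀ i ∈ SSp d (rr S₀ p₀), rr S₀ p i = rr S₀ (hat τ p₀ p) i := by
    intro i hi
    rcases i with u | k
    · rfl
    · have hk : k ∈ JK (τ d.f) := (mem_SSp h₀ k).1 hi
      have hkL : k ∉ LCX τ := Finset.disjoint_left.1 (JL_dis τ) (mem_JKX.2 ⟨_, hk⟩)
      show some (p k) = some (hat τ p₀ p k)
      rw [hat_neg hkL]
  intro i hi j hj
  unfold EE
  rw [key i hi, key j hj]

/-- the matrix of a tuple, from another tuple with the same labels -/
theorem two_tuples {p₀ p : ι → ℕ} (h₀ : TP τ d S₀ β p₀) (hp : TP τ d S₀ β p) :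
    NN d (rr S₀ p) = pt (NN d (rr S₀ p₀)) (Pool.Agent.N916.GB.sx (sgm p + sgm p₀)) := by
  have huu : ∀ k, uu (p k) = uu (p₀ k) := fun k =>
    uu_of_ty ((hp.ty d.f k).trans (h₀.ty d.f k).symm)
  have hl : ∀ k, lb d S₀ (p k) = lb d S₀ (p₀ k) := fun k => (hp.lab k).trans (h₀.lab k).symm
  have hrn : ∀ k l, k ≠ l → nr (p l) (p k) + nr (p₀ l) (p₀ k) =
      nr (p k) (p l) + nr (p₀ k) (p₀ l) := by
    intro k l hkl
    rw [nr_rec (hp.pr k).1 (hp.pr k).2.1 (hp.pr l).1 (hp.pr l).2.1 fun h => hkl (hp.inj h),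
      nr_rec (h₀.pr k).1 (h₀.pr k).2.1 (h₀.pr l).1 (h₀.pr l).2.1 fun h => hkl (h₀.inj h),
      huu k, huu l]
    have : ∀ x y z : ZMod 2, x + z + (y + z) = x + y := by decide
    exact this _ _ _
  funext i j
  rcases i with u | k <;> rcases j with v | l
  · rfl
  · show nO d (some (p l)) u = nO d (some (p₀ l)) u
    exact congrFun (congrArg Prod.fst (hl l)) u
  · show nO d v (some (p k)) = nO d v (some (p₀ k))
    exact congrFun (congrArg (fun t => t.2.1) (hl k)) v
  · show nr (p l) (p k) = nr (p₀ l) (p₀ k) + Pool.Agent.N916.GB.sx (sgm p + sgm p₀) k l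
    by_cases hkl : k = l
    · subst hkl
      rw [nr_self, nr_self, Pool.Agent.N958.GB.sx_self, add_zero]
    · rw [Pool.Agent.N958.GB.sx_sgm k l hkl (hrn k l hkl)]
      have : ∀ x y : ZMod 2, x = y + (x + y) := by decide
      exact this _ _

/-- the size condition -/
def Kc (d : Dt) (S₀ : Finset (Option ℕ)) (τ : ι → ℕ) (m : ℕ) : Prop :=
  ∀ p : ι → ℕ, (∀ i, ty d.f (p i) = τ i) →
    (SSp d (rr S₀ p)).card = (PPc d (rr S₀ p)).card + 2 * m

/-- the hypotheses for the first condition -/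
theorem hyp {m : ℕ} (ht : d.t < 4) (hA : RecA d.f d.A) (hS₀ : ∀ v ∈ S₀, PrO d.f v)
    {p₀ : ι → ℕ} (h₀ : TP τ d S₀ β p₀) (hβ : LN S₀ (τ d.f) β) (hkd : Kc d S₀ (τ d.f) m)
    (hL : ∃ i, τ d.f i = 0) :
    Hyp (JK (τ d.f)) (SSp d (rr S₀ p₀)) (PPc d (rr S₀ p₀)) (fun i => uO d (rr S₀ p₀ i))
      (NN d (rr S₀ p₀)) (EE d (rr S₀ p₀)) m := by
  have hPr : ∀ i, PrO d.f (rr S₀ p₀ i) := by
    rintro (u | i)
    · exact hS₀ u u.2
    · exact h₀.pr i
  have hinj := rr_inj h₀.inj h₀.ns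
  refine ⟨mem_SSp h₀, ?_, ?_, ?_, ?_, ?_, ?_, ?_, hkd p₀ (h₀.ty d.f)⟩
  · intro i
    unfold PPc SSp
    rw [mem_filter, mem_filter]
    simp only [mem_univ, true_and]
    rcases tyO_cases ht (rr S₀ p₀ i) with h | h | h | h <;> rw [h.1, h.2.1, h.2.2] <;> simp
  · intro i
    exact nO_self _
  · intro i j hij
    exact NN_rec hinj hPr i j hij
  · intro i
    unfold EE
    rw [if_pos rfl]
  · intro i hi j hj
    unfold SSp at hi hj
    exact EE_symm hA hinj hPr i j (mem_filter.1 hi).2 (mem_filter.1 hj).2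
  · intro w hw
    obtain ⟨i, hi, hi2⟩ := hβ w hw
    have hty := h₀.ty d.f i
    rw [hi] at hty
    refine ⟨i, mem_JK.2 (Or.inl hi), ?_, ?_⟩
    · show uu (p₀ i) = 0
      rcases ty_cases d.f (p₀ i) with h | h | h | h
      · rw [h.1] at hty; omega
      · rw [h.1] at hty; omega
      · exact h.2.2
      · rw [h.1] at hty; omega
    · intro h0
      apply hi2
      refine Eq.trans ?_ h0
      refine sum_congr rfl fun v' _ => ?_
      rw [← h₀.lab i]
      rfl
  · obtain ⟨i, hi⟩ := hL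
    refine ⟨i, ?_, ?_⟩
    · rw [mem_JK]
      omega
    · show uu (p₀ i) = 0
      have hty := h₀.ty d.f i
      rw [hi] at hty
      rcases ty_cases d.f (p₀ i) with h | h | h | h
      · exact h.2.2
      · rw [h.1] at hty; omega
      · rw [h.1] at hty; omega
      · rw [h.1] at hty; omega

theorem hat_TP {p₀ p : ι → ℕ} (h₀ : TP τ d S₀ β p₀) (hp : TP τ d S₀ β p) :
    TP τ d S₀ β (hat τ p₀ p) := by
  have hty : ∀ f i, ty f (hat τ p₀ p i) = τ f i := by
    intro f i
    unfold hat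
    split_ifs
    · exact h₀.ty f i
    · exact hp.ty f i
  refine ⟨?_, ?_, ?_, hty, ?_⟩
  · intro i j hij
    have h1 : ∀ f, τ f i = τ f j := fun f => by rw [← hty f i, ← hty f j, hij]
    by_cases h : i ∈ LCX τ
    · have h' : j ∈ LCX τ := mem_LCX.2 fun f => by rw [← h1 f]; exact mem_LCX.1 h f
      rw [hat_pos h, hat_pos h'] at hij
      exact h₀.inj hij
    · have h' : j ∉ LCX τ := fun h2 => h (mem_LCX.2 fun f => by rw [h1 f]; exact mem_LCX.1 h2 f)
      rw [hat_neg h, hat_neg h'] at hij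
      exact hp.inj hij
  · intro i
    unfold hat
    split_ifs
    · exact h₀.pr i
    · exact hp.pr i
  · intro i
    unfold hat
    split_ifs
    · exact h₀.ns i
    · exact hp.ns i
  · intro i
    unfold hat
    split_ifs
    · exact h₀.lab i
    · exact hp.lab i

end

end Pool.Agent.L0h74.BXX
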