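import Pool.Agent.L0h74.BXX.A
import Pool.Agent.L0h86.XF.GPX
import Pool.Agent.L0h2.P.BX1

/-!
# The count in a box for systems of two fields: preparations (after `Pool/Agent/L0h2/P/BX1.lean`)
-/

set_option autoImplicit false
set_option linter.unusedSectionVars false
set_option linter.unusedVariables false
set_option maxHeartbeats 4000000

open scoped Classical

namespace Pool.Agent.L0h74.BXX

open Finset
open Pool.Agent.Y703.CQ (nr sg c2 S_C2)
open Pool.Agent.N973.ND (m7 uu Gv Hyp Wk pt TT Ph Zk bf S_ALT)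
open Pool.Agent.N916.GB (HB)
open Pool.Agent.N958.GB (sgm)
open Pool.Agent.L0h1.KD (E1 xe JK card_E1)
open Pool.Agent.L0h2.P (G0 GP ffj ffj_le Pat amp amp_nonneg amp_le G0_congr ffj_congr Kg tau)
open Pool.Agent.L0h86.XF

section
variable {t : ℕ} {s : Fin t → Sy} {ι : Type} [Fintype ι] [LinearOrder ι] {S₀ : Finset ℕ}
  {τ : Bool → ι → ℕ} {β : ∀ l, ι → Lb (SW (s l) S₀)} {C : ι → Finset ℕ} {p p₀ : ι → ℕ}

theorem amp_amc (hC2 : S_C2) {t V : ℕ} {m : Fin t → ℕ} (hV : ∀ l, V ≤ m l) (pat : Fin t → Bool) :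
    |amp pat m - amc pat| ≤ t * (1 / 2 : ℝ) ^ V :=
  Pool.Agent.L0h2.P.amp_amc hC2 hV pat

theorem SW_union (s : Sy) (p : ι → ℕ) :
    SW s (S₀ ∪ univ.image p) = SW s S₀ ∪ univ.image fun i => some (p i) := by
  unfold SW
  ext v
  simp only [mem_union, mem_image, mem_univ, true_and]
  constructor
  · rintro (⟨a, h | ⟨i, rfl⟩, rfl⟩ | h)
    · exact Or.inl (Or.inl ⟨a, h, rfl⟩)
    · exact Or.inr ⟨i, rfl⟩
    · exact Or.inl (Or.inr h)
  · rintro ((⟨a, h, rfl⟩ | h) | ⟨i, rfl⟩)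
    · exact Or.inl ⟨a, Or.inl h, rfl⟩
    · exact Or.inr h
    · exact Or.inl ⟨p i, Or.inr ⟨i, rfl⟩, rfl⟩

theorem SW_disj {s : Sy} (hdis : ∀ v ∈ S₀, some v ∉ s.W) : Disjoint (S₀.image some) s.W := by
  rw [Finset.disjoint_left]
  intro v hv hv'
  rw [mem_image] at hv
  obtain ⟨a, ha, rfl⟩ := hv
  exact hdis a ha hv'

theorem sum_SW {M : Type} [AddCommMonoid M] {s : Sy} (hdis : ∀ v ∈ S₀, some v ∉ s.W)
    (f : Option ℕ → M) :
    ∑ v : SW s S₀, f v = ∑ u ∈ S₀, f (some u) + ∑ v ∈ s.W, f v := by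
  rw [Finset.sum_coe_sort (SW s S₀) f]
  unfold SW
  rw [sum_union (SW_disj hdis), sum_image fun a _ b _ h => Option.some_injective _ h]

/-- the sizes -/
theorem card_spW {s : Sy} (ht : s.d.t < 4) (hdis : ∀ v ∈ S₀, some v ∉ s.W) {τ : ι → ℕ} {m : ℕ}
    (h : kW s + kd s.d.f S₀ + ((univ.filter fun i => τ i = 3).card : ℤ) -
      ((univ.filter fun i => τ i = 1).card : ℤ) = 2 * m) : Kc s.d (SW s S₀) τ m := by
  intro p hτ
  have key : ∀ x : Option ℕ, (if mO s.d x = 1 then (1 : ℤ) else 0) -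
      (if tyO s.d x = 2 ∨ tyO s.d x = 1 then 1 else 0) =
      (if tyO s.d x = 3 then 1 else 0) - (if tyO s.d x = 1 then 1 else 0) := by
    intro x
    rcases tyO_cases ht x with h | h | h | h <;> rw [h.1, h.2.1] <;> simp
  have h1 : ((SSp s.d (rr (SW s S₀) p)).card : ℤ) - ((PPc s.d (rr (SW s S₀) p)).card : ℤ) =
      ∑ i : SW s S₀ ⊕ ι, ((if tyO s.d (rr (SW s S₀) p i) = 3 then (1 : ℤ) else 0) -
        (if tyO s.d (rr (SW s S₀) p i) = 1 then 1 else 0)) := by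
    unfold SSp PPc
    rw [card_filter, card_filter]
    push_cast
    rw [← sum_sub_distrib]
    exact sum_congr rfl fun i _ => key _
  have h3 : ∑ u : SW s S₀, ((if tyO s.d (rr (SW s S₀) p (Sum.inl u)) = 3 then (1 : ℤ) else 0) -
        (if tyO s.d (rr (SW s S₀) p (Sum.inl u)) = 1 then 1 else 0)) = kd s.d.f S₀ + kW s := by
    have e1 := sum_SW (M := ℤ) hdis fun v => ((if tyO s.d v = 3 then (1 : ℤ) else 0) -
        (if tyO s.d v = 1 then 1 else 0))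
    refine e1.trans ?_
    unfold kd kW
    rw [card_filter, card_filter, card_filter, card_filter]
    push_cast
    rw [← sum_sub_distrib, ← sum_sub_distrib]
    rfl
  have h4 : ∑ i : ι, ((if tyO s.d (rr (SW s S₀) p (Sum.inr i)) = 3 then (1 : ℤ) else 0) -
        (if tyO s.d (rr (SW s S₀) p (Sum.inr i)) = 1 then 1 else 0)) =
        ((univ.filter fun i => τ i = 3).card : ℤ) - ((univ.filter fun i => τ i = 1).card : ℤ) := by
    rw [card_filter, card_filter]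
    push_cast
    rw [← sum_sub_distrib]
    refine sum_congr rfl fun i _ => ?_
    have : tyO s.d (rr (SW s S₀) p (Sum.inr i)) = τ i := hτ i
    rw [this]
  rw [Fintype.sum_sum_type, h3, h4] at h1
  omega

/-- the columns of the dual kernel -/
noncomputable def PQ (τ : ι → ℕ) : Finset ι := univ.filter fun i => τ i = 2 ∨ τ i = 1

theorem mem_PQ {τ : ι → ℕ} {i : ι} : i ∈ PQ τ ↔ τ i = 2 ∨ τ i = 1 := by
  unfold PQ
  rw [mem_filter]
  exact ⟨fun h => h.2, fun h => ⟨mem_univ _, h⟩⟩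

theorem mem_PPc {d : Dt} {T : Finset (Option ℕ)} {γ : ι → Lb T} (h₀ : TP τ d T γ p₀) (k : ι) :
    Sum.inr k ∈ PPc d (rr T p₀) ↔ k ∈ PQ (τ d.f) := by
  unfold PPc PQ
  rw [mem_filter, mem_filter]
  have h1 : tyO d (rr T p₀ (Sum.inr k)) = τ d.f k := h₀.ty d.f k
  rw [h1]
  simp

/-- the numbers of the types -/
theorem card_types (τ : ι → ℕ) {e : ℕ} (he : (univ.filter fun i => τ i = 3).card ≤
    (univ.filter fun i => τ i = 1).card + e) : (JK τ).card ≤ (PQ τ).card + e := by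
  have h1 : JK τ = (univ.filter fun i => τ i = 2) ∪ (univ.filter fun i => τ i = 3) := by
    ext i
    rw [mem_JK, mem_union, mem_filter, mem_filter]
    simp
  have h2 : PQ τ = (univ.filter fun i => τ i = 2) ∪ (univ.filter fun i => τ i = 1) := by
    ext i
    rw [mem_PQ, mem_union, mem_filter, mem_filter]
    simp
  rw [h1, h2, card_union_of_disjoint, card_union_of_disjoint]
  · omega
  · rw [Finset.disjoint_left]
    intro i hi hi'
    rw [mem_filter] at hi hi'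
    omega
  · rw [Finset.disjoint_left]
    intro i hi hi'
    rw [mem_filter] at hi hi'
    omega

/-- the hypotheses for the general position -/
theorem gh {n : ℕ} {x : Fin t → Fin n → ZMod 2} {fr : Fin n → Bool} {JR : Fin n → Finset ι}
    {JS : Finset ι} {Q e : ℕ}
    (hdis : ∀ l, ∀ v ∈ S₀, some v ∉ (s l).W)
    (hp₀ : ∀ f i, ty f (p₀ i) = τ f i)
    (h₀ : ∀ l, TP τ (s l).d (SW (s l) S₀) (β l) p₀)
    (hβ : ∀ l, LN (SW (s l) S₀) (τ (s l).d.f) (β l))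
    (hL : ∃ i, i ∈ LCX τ)
    (hJR : ∀ r, ∀ i ∈ JR r, τ (fr r) i = 2 ∧ ∀ l l', (s l).d.f = fr r → (s l').d.f = fr r →
      dg (s l) (p₀ i) + x l r = dg (s l') (p₀ i) + x l' r)
    (sep : ∀ l l' : Fin t, l ≠ l' → (s l).d.f = (s l').d.f → ∃ r, fr r = (s l).d.f ∧ x l r ≠ x l' r)
    (hQ : ∀ r, Q ≤ (JR r).card)
    (hJS : ∀ i ∈ JS, τ false i = 2 ∧ τ true i = 0) (hQS : Q + e ≤ JS.card)
    (he : ∀ l, (univ.filter fun i => τ (s l).d.f i = 3).card ≤
      (univ.filter fun i => τ (s l).d.f i = 1).card + e) :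
    GhX (fun l => (s l).d.f) (fun f => JK (τ f)) (fun f => PQ (τ f))
      (fun l => SSp (s l).d (rr (SW (s l) S₀) p₀))
      (fun l => PPc (s l).d (rr (SW (s l) S₀) p₀)) (fun l => NN (s l).d (rr (SW (s l) S₀) p₀))
      (fun l i => bO (s l).d (rr (SW (s l) S₀) p₀ i)) (fun k k' => nr (p₀ k') (p₀ k)) fr x JR JS
      Q e := by
  refine ⟨fun l k => mem_SSp (h₀ l) k, fun l k => mem_PPc (h₀ l) k, fun l k k' => rfl, ?_, ?_, ?_,
    ?_, sep, hQ, fun l => card_types _ (he l), ?_, hQS⟩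
  · intro l w hw
    obtain ⟨i, hi, hi2⟩ := hβ l w hw
    refine ⟨i, mem_PQ.2 (Or.inl hi), ?_⟩
    intro h0
    apply hi2
    refine Eq.trans ?_ h0
    refine sum_congr rfl fun v' _ => ?_
    rw [← (h₀ l).lab i]
    rfl
  · obtain ⟨o, ho⟩ := hL
    refine ⟨o, fun f => ?_⟩
    have h := mem_LCX.1 ho f
    rw [mem_JK, mem_PQ]
    omega
  · intro k
    have key : ∀ f, ((k ∈ JK (τ f) ↔ k ∈ PQ (τ f)) ↔ uu (p₀ k) = 0) := by
      intro f
      rw [mem_JK, mem_PQ, ← hp₀ f k]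
      rcases ty_cases f (p₀ k) with h | h | h | h <;> rw [h.1, h.2.2] <;> simp
    show (k ∈ JK (τ false) ↔ k ∈ PQ (τ false)) ↔ (k ∈ JK (τ true) ↔ k ∈ PQ (τ true))
    rw [key false, key true]
  · intro r j hj
    obtain ⟨h1, h2⟩ := hJR r j hj
    refine ⟨mem_JK.2 (Or.inl h1), mem_PQ.2 (Or.inl h1), ?_⟩
    have key : ∀ l, tau (fun l => NN (s l).d (rr (SW (s l) S₀) p₀))
        (fun l i => bO (s l).d (rr (SW (s l) S₀) p₀ i)) l j =
        dg (s l) (p₀ j) + ∑ u ∈ S₀, nr u (p₀ j) := by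
      intro l
      unfold tau dg
      have e1 : ∑ v, (fun l => NN (s l).d (rr (SW (s l) S₀) p₀)) l (Sum.inr j) (Sum.inl v) =
          ∑ u ∈ S₀, nr u (p₀ j) + ∑ v ∈ (s l).W, nO (s l).d v (some (p₀ j)) :=
        sum_SW (M := ZMod 2) (hdis l) fun v => nO (s l).d v (some (p₀ j))
      rw [e1]
      show (s l).d.b (p₀ j) + _ = _
      ring
    intro l l' hl hl'
    rw [key l, key l']
    have h3 := h2 l l' hl hl'
    have : ∀ a b c d e : ZMod 2, a + b = c + d → a + e + b = c + e + d := by decide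
    exact this _ _ _ _ _ h3
  · intro j hj
    obtain ⟨h1, h2⟩ := hJS j hj
    refine ⟨mem_JK.2 (Or.inl h1), ?_⟩
    rw [mem_JK, h2]
    omega

/-- the average over the free symbols -/
theorem avg_lej (hALT : S_ALT) {m : Fin t → ℕ} {mm V : ℕ} (hmm : ∀ l, m l ≤ mm)
    (ht : ∀ l, (s l).d.t < 4) (hA : ∀ l, RecA (s l).d.f (s l).d.A)
    (hS₀ : ∀ l, ∀ v ∈ SW (s l) S₀, PrO (s l).d.f v)
    (h₀ : ∀ l, TP τ (s l).d (SW (s l) S₀) (β l) p₀)
    (hβ : ∀ l, LN (SW (s l) S₀) (τ (s l).d.f) (β l))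
    (hkd : ∀ l, Kc (s l).d (SW (s l) S₀) (τ (s l).d.f) (m l)) (hV : 1 ≤ V)
    (hL : 6 * mm + 3 * V ≤ (univ.filter fun i => τ false i = 0 ∧ τ true i = 0).card)
    (hp : ∀ l, TP τ (s l).d (SW (s l) S₀) (β l) p) (pat : Fin t → Bool) :
    |∑ ε : ↥(JKX τ ×ˢ LCX τ) → ZMod 2, ffj (JKX τ) (fun l => SSp (s l).d (rr (SW (s l) S₀) p₀))
      (fun l => PPc (s l).d (rr (SW (s l) S₀) p₀))
      (fun l => EE (s l).d (rr (SW (s l) S₀) (hat τ p₀ p)))
      (fun l i => bO (s l).d (rr (SW (s l) S₀) p₀ i)) m pat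
      (fun l => pt (MM (s l).d τ (SW (s l) S₀) (hat τ p₀ p)) (xe ε))| ≤
      t * (1 / 2 : ℝ) ^ V * 2 ^ Fintype.card ↥(JKX τ ×ˢ LCX τ) := by
  have hL1 : ∃ i, i ∈ LCX τ := by
    have h1 : 0 < (univ.filter fun i => τ false i = 0 ∧ τ true i = 0).card := by omega
    obtain ⟨i, hi⟩ := card_pos.1 h1
    exact ⟨i, hi⟩
  have hH : ∀ l, Hyp (JK (τ (s l).d.f)) (SSp (s l).d (rr (SW (s l) S₀) p₀))
      (PPc (s l).d (rr (SW (s l) S₀) p₀))
      (fun i => uO (s l).d (rr (SW (s l) S₀) (hat τ p₀ p) i))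
      (NN (s l).d (rr (SW (s l) S₀) (hat τ p₀ p)))
      (EE (s l).d (rr (SW (s l) S₀) (hat τ p₀ p))) (m l) := by
    intro l
    have hh := hat_TP (h₀ l) (hp l)
    obtain ⟨i, hi⟩ := hL1
    have H := hyp (ht l) (hA l) (hS₀ l) hh (hβ l) (hkd l) ⟨i, mem_LCX.1 hi _⟩
    have hty : ∀ i, ty (s l).d.f (hat τ p₀ p i) = ty (s l).d.f (p₀ i) := fun i =>
      (hh.ty _ i).trans ((h₀ l).ty _ i).symm
    rw [SSp_eq hty, PPc_eq hty] at H
    exact H
  have h1 := Pool.Agent.L0h2.P.la2 (Sp := fun l => SSp (s l).d (rr (SW (s l) S₀) p₀))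
    (Pc := fun l => PPc (s l).d (rr (SW (s l) S₀) p₀)) (Jk := JKX τ) (Lc := LCX τ)
    (N := fun l => MM (s l).d τ (SW (s l) S₀) (hat τ p₀ p))
    (E := fun l => EE (s l).d (rr (SW (s l) S₀) (hat τ p₀ p)))
    (b := fun l i => bO (s l).d (rr (SW (s l) S₀) p₀ i)) (m := m) (pat := pat)
    (q := 2 * mm + V) hALT hmm (by
      intro l k hk h
      have hl0 : τ (s l).d.f k = 0 := mem_LCX.1 hk _
      have h2 := mem_PQ.1 ((mem_PPc (h₀ l) k).1 h)
      omega) (fun l => (hH l).es) (fun l => (hH l).e0) (fun l => (hH l).card) (by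
      have h2 : (LCX τ).card = (univ.filter fun i => τ false i = 0 ∧ τ true i = 0).card := rfl
      rw [h2]
      omega)
  refine le_of_mul_le_mul_right (h1.trans (le_of_eq ?_))
    (by positivity : (0 : ℝ) < 2 ^ (2 * mm + V))
  have h3 : (1 / 2 : ℝ) ^ V * 2 ^ V = 1 := by
    rw [← mul_pow]
    norm_num
  rw [pow_add]
  calc (t : ℝ) * 2 ^ (2 * mm) * 2 ^ Fintype.card ↥(JKX τ ×ˢ LCX τ) =
      ((1 / 2 : ℝ) ^ V * 2 ^ V) * (t * 2 ^ (2 * mm) * 2 ^ Fintype.card ↥(JKX τ ×ˢ LCX τ)) := by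
        rw [h3, one_mul]
    _ = _ := by ring

end

end Pool.Agent.L0h74.BXX
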