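import Pool.Agent.L0h74.BXX.B

/-!
# The part of a box with given labels, systems of two fields (after `Pool/Agent/L0h2/P/BX2.lean`)
-/

set_option autoImplicit false
set_option linter.unusedSectionVars false
set_option linter.unusedVariables false
set_option maxHeartbeats 4000000

open scoped Classical

namespace Pool.Agent.L0h74.BXX

open Finset
open Pool.Agent.Y703.CQ (nr sg c2 S_C2)
open Pool.Agent.N973.ND (m7 uu Gv Hyp Wk pt TT Ph Zk bf S_ALT)
open Pool.Agent.N916.GB (HB)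
open Pool.Agent.N958.GB (sgm HB_sub)
open Pool.Agent.L0h1.KD (E1 xe JK card_E1 eqc card_prod_le)
open Pool.Agent.L0h2.P (G0 GP ffj ffj_le Pat amp amp_nonneg amp_le G0_congr ffj_congr Kg)
open Pool.Agent.L0h86.XF

section
variable {t : ℕ} {s : Fin t → Sy} {ι : Type} [Fintype ι] [LinearOrder ι] {S₀ : Finset ℕ}
  {τ : Bool → ι → ℕ} {β : ∀ l, ι → Lb (SW (s l) S₀)} {C : ι → Finset ℕ}

/-- **the part of a box with given labels** -/
theorem labj (hALT : S_ALT) (hC2 : S_C2) {m : Fin t → ℕ} {mm V : ℕ} (hmm : ∀ l, m l ≤ mm)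
    (hV : 1 ≤ V) (hVm : ∀ l, V ≤ m l)
    (ht : ∀ l, (s l).d.t < 4) (hA : ∀ l, RecA (s l).d.f (s l).d.A) {X : ι → ℕ}
    {κ : ℝ} (hκ : 0 ≤ κ) (hCX : ∀ i, (C i).card ≤ X i) (hHB : HB C X κ)
    (hS₀ : ∀ l, ∀ v ∈ SW (s l) S₀, PrO (s l).d.f v) (hdis : ∀ l, ∀ v ∈ S₀, some v ∉ (s l).W)
    (hty : ∀ p ∈ Fintype.piFinset C, ∀ f i, ty f (p i) = τ f i)
    (hTP : ∀ p ∈ Fintype.piFinset C, ∀ l, TP τ (s l).d (SW (s l) S₀) (β l) p)
    (hβ : ∀ l, LN (SW (s l) S₀) (τ (s l).d.f) (β l))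
    (hkd : ∀ l, Kc (s l).d (SW (s l) S₀) (τ (s l).d.f) (m l))
    (hL : 6 * mm + 3 * V ≤ (univ.filter fun i => τ false i = 0 ∧ τ true i = 0).card)
    {n : ℕ} {x : Fin t → Fin n → ZMod 2} {fr : Fin n → Bool} {JR : Fin n → Finset ι}
    {JS : Finset ι} {Q e : ℕ}
    (hJR : ∀ r, ∀ i ∈ JR r, τ (fr r) i = 2 ∧ ∀ q ∈ C i, ∀ l l', (s l).d.f = fr r →
      (s l').d.f = fr r → dg (s l) q + x l r = dg (s l') q + x l' r)
    (sep : ∀ l l' : Fin t, l ≠ l' → (s l).d.f = (s l').d.f →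
      ∃ r, fr r = (s l).d.f ∧ x l r ≠ x l' r)
    (hQ : ∀ r, Q ≤ (JR r).card)
    (hJS : ∀ i ∈ JS, τ false i = 2 ∧ τ true i = 0) (hQS : Q + e ≤ JS.card)
    (he : ∀ l, (univ.filter fun i => τ (s l).d.f i = 3).card ≤
      (univ.filter fun i => τ (s l).d.f i = 1).card + e)
    (hQ2 : V + (∑ l, (SW (s l) S₀).card + (Kg t + (t * (t + 1) + t * e))) ≤ Q)
    (pat : Fin t → Bool) :
    |(((Fintype.piFinset C).filter fun p => PatS s pat (S₀ ∪ univ.image p)).card : ℝ) -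
        amc pat * ((Fintype.piFinset C).card : ℝ)| ≤
      (4 * t + 2) * (1 / 2 : ℝ) ^ V * ((Fintype.piFinset C).card : ℝ) +
      2 * (2 ^ (Pool.Agent.N916.GB.ps ι).card * (κ * ∏ j, (X j : ℝ))) := by
  set R : ℝ := 2 ^ (Pool.Agent.N916.GB.ps ι).card * (κ * ∏ j, (X j : ℝ)) with hR
  have hR00 : 0 ≤ κ * ∏ j, (X j : ℝ) :=
    mul_nonneg hκ (Finset.prod_nonneg fun j _ => by positivity)
  have hR0 : 0 ≤ R := mul_nonneg (by positivity) hR00
  set P : ℝ := ((Fintype.piFinset C).card : ℝ) with hP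
  have hP0 : 0 ≤ P := Nat.cast_nonneg _
  by_cases hemp : Fintype.piFinset C = ∅
  · rw [hemp, filter_empty]
    rw [hP, hemp]
    simp
    exact hR0
  obtain ⟨p₀, hp₀⟩ := Finset.nonempty_iff_ne_empty.2 hemp
  have h₀ := hTP p₀ hp₀
  set Sp : ∀ l, Finset (SW (s l) S₀ ⊕ ι) := fun l => SSp (s l).d (rr (SW (s l) S₀) p₀) with hSp
  set Pc : ∀ l, Finset (SW (s l) S₀ ⊕ ι) := fun l => PPc (s l).d (rr (SW (s l) S₀) p₀) with hPc
  set b₀ : ∀ l, SW (s l) S₀ ⊕ ι → ZMod 2 := fun l i => bO (s l).d (rr (SW (s l) S₀) p₀ i) with hb₀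
  set Nf : (ι → ℕ) → ∀ l, SW (s l) S₀ ⊕ ι → SW (s l) S₀ ⊕ ι → ZMod 2 := fun p l =>
    NN (s l).d (rr (SW (s l) S₀) p) with hNf
  set Ef : (ι → ℕ) → ∀ l, SW (s l) S₀ ⊕ ι → SW (s l) S₀ ⊕ ι → ZMod 2 := fun p l =>
    EE (s l).d (rr (SW (s l) S₀) p) with hEf
  have hL1 : ∃ i, i ∈ LCX τ := by
    have h1 : 0 < (univ.filter fun i => τ false i = 0 ∧ τ true i = 0).card := by omega
    obtain ⟨i, hi⟩ := card_pos.1 h1
    exact ⟨i, hi⟩
  have H : ∀ l, Hyp (JK (τ (s l).d.f)) (Sp l) (Pc l)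
      (fun i => uO (s l).d (rr (SW (s l) S₀) p₀ i)) (Nf p₀ l) (Ef p₀ l) (m l) := fun l =>
    hyp (ht l) (hA l) (hS₀ l) (h₀ l) (hβ l) (hkd l) (by
      obtain ⟨i, hi⟩ := hL1
      exact ⟨i, mem_LCX.1 hi _⟩)
  have hp₀C : ∀ i, p₀ i ∈ C i := fun i => (Fintype.mem_piFinset.1 hp₀) i
  have HG : GhX (fun l => (s l).d.f) (fun f => JK (τ f)) (fun f => PQ (τ f)) Sp Pc (Nf p₀) b₀
      (fun k k' => nr (p₀ k') (p₀ k)) fr x JR JS Q e :=
    gh hdis (hty p₀ hp₀) h₀ hβ hL1 (fun r i hi => ⟨(hJR r i hi).1, (hJR r i hi).2 _ (hp₀C i)⟩)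
      sep hQ hJS hQS he
  -- the condition
  have hGd : ∀ p ∈ Fintype.piFinset C, (PatS s pat (S₀ ∪ univ.image p) ↔
      Pat pat Sp Pc (Nf p) (Ef p) b₀) := by
    intro p hp
    unfold PatS Pat
    refine forall_congr' fun l => ?_
    have h1 := hTP p hp l
    have hty : ∀ i, ty (s l).d.f (p i) = ty (s l).d.f (p₀ i) := fun i =>
      (h1.ty _ i).trans ((h₀ l).ty _ i).symm
    have h2 : (fun i => bO (s l).d (rr (SW (s l) S₀) p i)) = b₀ l := by
      funext i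
      rcases i with u | k
      · rfl
      · exact congrArg (fun t => t.2.2) ((h1.lab k).trans ((h₀ l).lab k).symm)
    have h3 : GdS (s l) (S₀ ∪ univ.image p) ↔ Gv (Sp l) (Pc l) (Nf p l) (Ef p l) (b₀ l) := by
      unfold GdS
      rw [SW_union, GdO_iff (s l).d (rr_inj h1.inj h1.ns) rr_im, GRO_eq, SSp_eq hty, PPc_eq hty, h2]
    rw [h3]
  have htt : ∀ p ∈ Fintype.piFinset C, Nf p = fun l => pt (Nf p₀ l)
      (Pool.Agent.N916.GB.sx (sgm p + sgm p₀)) := by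
    intro p hp
    funext l
    exact two_tuples (h₀ l) (hTP p hp l)
  -- the good position
  obtain ⟨W, hW⟩ : ∃ W : (Pool.Agent.N916.GB.ps ι → ZMod 2) → Prop, W = fun σ =>
    ¬ G0 (JKX τ) Sp Pc (fun l => pt (Nf p₀ l) (Pool.Agent.N916.GB.sx (σ + sgm p₀))) b₀ := ⟨_, rfl⟩
  set q : ℝ := 2 ^ (Pool.Agent.N916.GB.ps ι).card with hq
  have hq0 : 0 < q := by positivity
  have hWc : ((univ.filter W).card : ℝ) ≤ ((t + 1) * (1 / 2 : ℝ) ^ V) * q := by
    set B1 : Fin t → Finset (Pool.Agent.N916.GB.ps ι → ZMod 2) := fun l => univ.filter fun σ =>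
      ¬ E1 (Sp l) (Pc l) (pt (Nf p₀ l) (Pool.Agent.N916.GB.sx σ)) (b₀ l) with hB1
    set B2 : Finset (Pool.Agent.N916.GB.ps ι → ZMod 2) := univ.filter fun σ =>
      ¬ GP (JKX τ) Sp Pc (fun l => pt (Nf p₀ l) (Pool.Agent.N916.GB.sx σ)) b₀ with hB2
    have h1 : (univ.filter W).card ≤ ((univ.biUnion B1) ∪ B2).card := by
      refine card_le_card_of_injOn (fun σ => σ + sgm p₀) ?_ ?_
      · intro σ hσ
        rw [mem_coe, mem_filter, hW] at hσ
        rw [mem_coe, mem_union, mem_biUnion]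
        obtain ⟨-, hσ⟩ := hσ
        unfold G0 at hσ
        rw [not_and_or] at hσ
        rcases hσ with h | h
        · push Not at h
          obtain ⟨l, hl⟩ := h
          exact Or.inl ⟨l, mem_univ _, mem_filter.2 ⟨mem_univ _, hl⟩⟩
        · exact Or.inr (mem_filter.2 ⟨mem_univ _, h⟩)
      · intro σ _ σ' _ h
        exact add_right_cancel h
    have h2 : ∀ l, ((B1 l).card : ℝ) ≤ (1 / 2 : ℝ) ^ V * q := by
      intro l
      have h3 : ((B1 l).card : ℝ) * 4 ^ m l ≤ q := by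
        rw [hq]
        exact_mod_cast card_E1 (H l) (b₀ l)
      have h5 : (0 : ℝ) < 4 ^ m l := by positivity
      have h6 : (1 / 4 : ℝ) ^ m l * 4 ^ m l = 1 := by
        rw [← mul_pow]
        norm_num
      have h7 : ((B1 l).card : ℝ) ≤ (1 / 4 : ℝ) ^ m l * q := by
        refine le_of_mul_le_mul_right ?_ h5
        calc ((B1 l).card : ℝ) * 4 ^ m l ≤ q := h3
          _ = ((1 / 4 : ℝ) ^ m l * 4 ^ m l) * q := by rw [h6, one_mul]
          _ = _ := by ring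
      refine h7.trans (mul_le_mul_of_nonneg_right ?_ hq0.le)
      calc (1 / 4 : ℝ) ^ m l ≤ (1 / 4 : ℝ) ^ V :=
            pow_le_pow_of_le_one (by norm_num) (by norm_num) (hVm l)
        _ ≤ (1 / 2 : ℝ) ^ V := pow_le_pow_left₀ (by norm_num) (by norm_num) V
    have h3 : (B2.card : ℝ) ≤ (1 / 2 : ℝ) ^ V * q := by
      have h4 := card_GPX HG
      have h5 : B2.card * 2 ^ Q ≤ 2 ^ (Pool.Agent.N916.GB.ps ι).card *
          2 ^ (∑ l, (SW (s l) S₀).card + (Kg t + (t * (t + 1) + t * e))) := by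
        refine h4.trans (Nat.mul_le_mul_left _ ?_)
        rw [pow_add 2 (∑ l, (SW (s l) S₀).card), pow_add 2 (Kg t)]
        have h6 : ∑ l, Fintype.card (SW (s l) S₀) = ∑ l, (SW (s l) S₀).card :=
          sum_congr rfl fun l _ => Fintype.card_coe _
        rw [h6]
        exact Nat.mul_le_mul_left _ (Nat.mul_le_mul_right _ Nat.lt_two_pow_self.le)
      have h6 : B2.card * 2 ^ V ≤ 2 ^ (Pool.Agent.N916.GB.ps ι).card := by
        have h7 : (B2.card * 2 ^ V) * 2 ^ (∑ l, (SW (s l) S₀).card + (Kg t + (t * (t + 1) + t * e))) ≤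
            2 ^ (Pool.Agent.N916.GB.ps ι).card *
              2 ^ (∑ l, (SW (s l) S₀).card + (Kg t + (t * (t + 1) + t * e))) := by
          refine le_trans ?_ h5
          rw [mul_assoc, ← pow_add]
          exact Nat.mul_le_mul_left _ (Nat.pow_le_pow_right (by norm_num) hQ2)
        exact Nat.le_of_mul_le_mul_right h7 (by positivity)
      have h7 : (B2.card : ℝ) * 2 ^ V ≤ q := by
        rw [hq]
        exact_mod_cast h6
      have h8 : (1 / 2 : ℝ) ^ V * 2 ^ V = 1 := by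
        rw [← mul_pow]
        norm_num
      refine le_of_mul_le_mul_right ?_ (by positivity : (0 : ℝ) < 2 ^ V)
      calc (B2.card : ℝ) * 2 ^ V ≤ q := h7
        _ = ((1 / 2 : ℝ) ^ V * 2 ^ V) * q := by rw [h8, one_mul]
        _ = _ := by ring
    have h4 : (((univ.biUnion B1) ∪ B2).card : ℝ) ≤ ∑ l, ((B1 l).card : ℝ) + B2.card := by
      have h5 : ((univ.biUnion B1) ∪ B2).card ≤ ∑ l, (B1 l).card + B2.card :=
        (card_union_le _ _).trans (Nat.add_le_add_right card_biUnion_le _)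
      exact_mod_cast h5
    have h5 : ((univ.filter W).card : ℝ) ≤ (((univ.biUnion B1) ∪ B2).card : ℝ) := by
      exact_mod_cast h1
    refine (h5.trans h4).trans ?_
    refine (add_le_add (sum_le_sum fun l _ => h2 l) h3).trans (le_of_eq ?_)
    rw [sum_const, card_univ, Fintype.card_fin, nsmul_eq_mul]
    ring
  have hPC : ∏ j, ((C j).card : ℝ) = P := by
    rw [hP, Fintype.card_piFinset]
    push_cast
    rfl
  set B := (Fintype.piFinset C).filter fun p => ¬ G0 (JKX τ) Sp Pc (Nf p) b₀ with hB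
  have hBc : (B.card : ℝ) ≤ ((t + 1) * (1 / 2 : ℝ) ^ V) * P + R := by
    have h1 := Pool.Agent.N19.GB.t_EQ ι C X κ hκ hCX hHB W
    have h2 : ((Fintype.piFinset C).filter fun p => W fun e => nr (p e.1.1) (p e.1.2)) = B := by
      refine filter_congr fun p hp => ?_
      rw [htt p hp, hW]
      rfl
    rw [h2, hPC] at h1
    have h3 : ((univ.filter W).card : ℝ) / 2 ^ (Pool.Agent.N916.GB.ps ι).card ≤
        (t + 1) * (1 / 2 : ℝ) ^ V := by
      rw [div_le_iff₀ (by positivity)]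
      exact hWc
    have h4 := (abs_le.1 h1).2
    have h5 := mul_le_mul_of_nonneg_right h3 hP0
    linarith
  -- the form
  set g : (ι → ℕ) → ℝ := fun p => ffj (JKX τ) Sp Pc (Ef p) b₀ m pat (Nf p) with hg
  have hff : |∑ p ∈ Fintype.piFinset C, g p| ≤ t * (1 / 2 : ℝ) ^ V * P + R := by
    set F : (ι → ℕ) → (↥(JKX τ ×ˢ LCX τ) → ZMod 2) → ℂ := fun p ε =>
      ((ffj (JKX τ) Sp Pc (Ef (hat τ p₀ p)) b₀ m pat
        (fun l => pt (MM (s l).d τ (SW (s l) S₀) (hat τ p₀ p)) (xe ε)) : ℝ) : ℂ) with hF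
    have h1 := eqc (Jk := JKX τ) (Lc := LCX τ) hκ hCX hHB (JL_dis τ) F (by
      intro p ε
      simp only [hF]
      rw [Complex.norm_real, Real.norm_eq_abs]
      exact ffj_le _) (by
      intro p p' h
      have h2 : hat τ p₀ p = hat τ p₀ p' := by
        funext i
        by_cases hi : i ∈ LCX τ
        · rw [hat_pos hi, hat_pos hi]
        · rw [hat_neg hi, hat_neg hi]
          exact h i hi
      simp only [hF, h2])
    have h2 : ∀ p ∈ Fintype.piFinset C, F p (fun e => nr (p e.1.1) (p e.1.2)) = ((g p : ℝ) : ℂ) := by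
      intro p hp
      simp only [hF, hg]
      congr 1
      exact (ffj_congr (fun l => NN_hat (h₀ l) (hTP p hp l)) (fun l => EE_hat (h₀ l))).symm
    have h3 : ∀ p ∈ Fintype.piFinset C,
        ‖(∑ ε, F p ε) / 2 ^ Fintype.card ↥(JKX τ ×ˢ LCX τ)‖ ≤ t * (1 / 2 : ℝ) ^ V := by
      intro p hp
      have h4 := avg_lej hALT hmm ht hA hS₀ h₀ hβ hkd hV hL (hTP p hp) pat
      rw [norm_div, norm_pow]
      have e2 : ‖(2 : ℂ)‖ = 2 := by norm_num
      rw [e2, div_le_iff₀ (by positivity)]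
      refine le_trans (le_of_eq ?_) h4
      simp only [hF]
      rw [← Complex.ofReal_sum, Complex.norm_real, Real.norm_eq_abs]
    have h4 : ((∑ p ∈ Fintype.piFinset C, g p : ℝ) : ℂ) =
        ∑ p ∈ Fintype.piFinset C, (F p (fun e => nr (p e.1.1) (p e.1.2)) -
          (∑ ε, F p ε) / 2 ^ Fintype.card ↥(JKX τ ×ˢ LCX τ)) +
        ∑ p ∈ Fintype.piFinset C, (∑ ε, F p ε) / 2 ^ Fintype.card ↥(JKX τ ×ˢ LCX τ) := by
      rw [← sum_add_distrib, Complex.ofReal_sum]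
      refine sum_congr rfl fun p hp => ?_
      rw [sub_add_cancel, h2 p hp]
    have h5 : |∑ p ∈ Fintype.piFinset C, g p| = ‖((∑ p ∈ Fintype.piFinset C, g p : ℝ) : ℂ)‖ := by
      rw [Complex.norm_real, Real.norm_eq_abs]
    rw [h5, h4]
    refine (norm_add_le _ _).trans ?_
    have h6 : (2 : ℝ) ^ Fintype.card ↥(JKX τ ×ˢ LCX τ) * (κ * ∏ j, (X j : ℝ)) ≤ R := by
      rw [hR]
      refine mul_le_mul_of_nonneg_right ?_ hR00
      exact pow_le_pow_right₀ (by norm_num) (card_prod_le (JL_dis τ))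
    have h7 : ‖∑ p ∈ Fintype.piFinset C, (∑ ε, F p ε) / 2 ^ Fintype.card ↥(JKX τ ×ˢ LCX τ)‖ ≤
        t * (1 / 2 : ℝ) ^ V * P := by
      refine (norm_sum_le _ _).trans ?_
      refine (sum_le_card_nsmul _ _ _ h3).trans (le_of_eq ?_)
      rw [nsmul_eq_mul, hP, mul_comm]
    linarith [h1, h6, h7]
  -- the combination
  set G : ℝ := (((Fintype.piFinset C).filter fun p => PatS s pat (S₀ ∪ univ.image p)).card : ℝ)
    with hG
  have hamp0 := amp_nonneg pat m
  have hamp1 := amp_le pat m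
  have hsum : |G - amp pat m * P - ∑ p ∈ Fintype.piFinset C, g p| ≤ B.card := by
    have h1 : G = ∑ p ∈ Fintype.piFinset C,
        if Pat pat Sp Pc (Nf p) (Ef p) b₀ then (1 : ℝ) else 0 := by
      rw [hG, card_filter]
      push_cast
      refine sum_congr rfl fun p hp => ?_
      simp only [hGd p hp]
    have h2 : amp pat m * P = ∑ p ∈ Fintype.piFinset C, amp pat m := by
      rw [sum_const, nsmul_eq_mul, hP, mul_comm]
    have h3 : (B.card : ℝ) = ∑ p ∈ Fintype.piFinset C,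
        if ¬ G0 (JKX τ) Sp Pc (Nf p) b₀ then (1 : ℝ) else 0 := by
      rw [hB, card_filter]
      push_cast
      rfl
    rw [h1, h2, h3, ← sum_sub_distrib, ← sum_sub_distrib]
    refine (abs_sum_le_sum_abs _ _).trans (sum_le_sum fun p hp => ?_)
    simp only [hg]
    unfold ffj
    by_cases h4 : G0 (JKX τ) Sp Pc (Nf p) b₀
    · simp only [h4, and_true, not_true_eq_false, if_true, if_false]
      rw [mul_one, sub_self, abs_zero]
    · simp only [h4, and_false, not_false_eq_true, if_true, if_false]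
      rw [mul_zero, sub_zero, sub_zero, abs_le]
      split_ifs <;> constructor <;> linarith
  have hac := amp_amc hC2 hVm pat
  have hacP : |(amp pat m - amc pat) * P| ≤ t * (1 / 2 : ℝ) ^ V * P := by
    rw [abs_mul, abs_of_nonneg hP0]
    exact mul_le_mul_of_nonneg_right hac hP0
  have h1 : G - amc pat * P = (G - amp pat m * P - ∑ p ∈ Fintype.piFinset C, g p) +
      (∑ p ∈ Fintype.piFinset C, g p + (amp pat m - amc pat) * P) := by ring
  rw [h1]
  refine (abs_add_le _ _).trans ?_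
  have h2 := abs_add_le (∑ p ∈ Fintype.piFinset C, g p) ((amp pat m - amc pat) * P)
  have h3 : 0 ≤ (1 / 2 : ℝ) ^ V * P := by positivity
  have h4 : 0 ≤ (t : ℝ) * ((1 / 2 : ℝ) ^ V * P) := by positivity
  nlinarith [hsum, hBc, hff, hacP, h2, h3, h4]

end

end Pool.Agent.L0h74.BXX
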